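import Pool.Agent.Lib.MP_1a91b9_nuW.DY.Top

/-!
# The prime numbers which split in the field of complex multiplication
-/

set_option autoImplicit false

namespace Pool.Agent.Lib.MP_1a91b9_nuW.UG

open NumberField Pool.Agent.Lib.MP_1a91b9_nuT
open Pool.Agent.Lib.MP_1a91b9_nuX Pool.Agent.Lib.MP_1a91b9_nuX.DB Pool.Agent.Lib.MP_1a91b9_nuX.DX
open Pool.Agent.Lib.MP_1a91b9_nuW.DY (Splt)

variable [CD]

/-- an integer dividing `m + n ta` divides `n` -/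
theorem dvd_coord {ℓ : ℕ} {m n : ℤ} (h : (ℓ : 𝓞 K) ∣ (m : 𝓞 K) + (n : 𝓞 K) * ta) :
    (ℓ : ℤ) ∣ n := by
  obtain ⟨c, hc⟩ := h
  obtain ⟨a, b, rfl⟩ := exists_coords c
  have h1 : (m : 𝓞 K) + (n : 𝓞 K) * ta =
      ((ℓ * a : ℤ) : 𝓞 K) + ((ℓ * b : ℤ) : 𝓞 K) * ta := by
    rw [hc]
    push_cast
    ring
  exact ⟨b, (coords_inj h1).2⟩

/-- a prime number modulo which the discriminant is a square splits -/
theorem splt_of_sq {ℓ : ℕ} (hℓ : ℓ.Prime) (hD : ¬ (ℓ : ℤ) ∣ CD.bad)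
    (h : IsSquare ((CD.tr ^ 2 - 4 * CD.nm : ℤ) : ZMod ℓ)) : Splt ℓ := by
  obtain ⟨ϖ, q, hp⟩ := DX.exists_pd hℓ hD
  rcases pd_cases hp with ⟨hq, hc⟩ | ⟨hq, -⟩
  · refine ⟨ϖ, ?_, hc⟩
    rw [pd_mul_cj hp, hq]
  · exfalso
    have hϖ := hp.inert hq
    have hprime : Prime (ℓ : 𝓞 K) := by
      rw [← hϖ]
      exact hp.prime
    obtain ⟨z, hz⟩ := h
    obtain ⟨n, rfl⟩ := ZMod.intCast_surjective z
    have h1 : (ℓ : ℤ) ∣ (CD.tr ^ 2 - 4 * CD.nm) - n * n := by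
      rw [← ZMod.intCast_zmod_eq_zero_iff_dvd]
      rw [Int.cast_sub, hz, Int.cast_mul, sub_self]
    have h2 : (ℓ : 𝓞 K) ∣ (((-CD.tr - n : ℤ) : 𝓞 K) + ((2 : ℤ) : 𝓞 K) * ta) *
        (((-CD.tr + n : ℤ) : 𝓞 K) + ((2 : ℤ) : 𝓞 K) * ta) := by
      obtain ⟨c, hc⟩ := h1
      refine ⟨(c : 𝓞 K), ?_⟩
      have h3 : (((CD.tr ^ 2 - 4 * CD.nm) - n * n : ℤ) : 𝓞 K) = (((ℓ : ℤ) * c : ℤ) : 𝓞 K) := by
        rw [hc]
      push_cast at h3 ⊢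
      linear_combination 4 * ta_quad + h3
    have h5 := hp.five
    rcases hprime.dvd_or_dvd h2 with h3 | h3
    · have h4 := Int.le_of_dvd (by norm_num) (dvd_coord h3)
      omega
    · have h4 := Int.le_of_dvd (by norm_num) (dvd_coord h3)
      omega

end Pool.Agent.Lib.MP_1a91b9_nuW.UG
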